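import Pool.Agent.H83.LP.Plot
import Pool.Agent.H99.PT.Main

/-!
Triangles whose words agree in a large weight with a fixed word.
-/

namespace Pool.Agent.H83.EB

open Pool.Agent.H99.PT Pool.Agent.H83.LP Finset

/-- pairs with equal letters, when one letter occurs often -/
theorem pairs_lower (V : Finset (ℕ × ℕ)) (f : ℕ × ℕ → Fin 4) (i0 : Fin 4) (a : ℝ) :
    (V.card : ℝ) ^ 2 * ((4 * a ^ 2 - 2 * a + 1) / 3) +
      (8 * a - 2) / 3 * V.card * (((V.filter (fun v => f v = i0)).card : ℝ) - a * V.card) ≤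
      ∑ v ∈ V, ∑ w ∈ V, (if f v = f w then (1 : ℝ) else 0) := by
  rw [pairs_eq]
  set c : Fin 4 → ℝ := fun i => ((V.filter (fun v => f v = i)).card : ℝ) with hc
  have h3 : ∑ i : Fin 4, c i = V.card := by
    have := Finset.card_eq_sum_card_fiberwise (s := V) (t := Finset.univ) (f := f)
      (fun v _ => Finset.mem_univ _)
    rw [this]
    push_cast
    rfl
  have h4 : (∑ i ∈ (Finset.univ.erase i0), c i) ^ 2 ≤
      3 * ∑ i ∈ (Finset.univ.erase i0), c i ^ 2 := by
    have := sq_sum_le_card_mul_sum_sq (s := (Finset.univ.erase i0 : Finset (Fin 4))) (f := c)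
    rw [Finset.card_erase_of_mem (Finset.mem_univ _), Finset.card_univ, Fintype.card_fin] at this
    push_cast at this
    linarith
  have h5 : ∑ i : Fin 4, c i = c i0 + ∑ i ∈ (Finset.univ.erase i0), c i :=
    (Finset.add_sum_erase _ _ (Finset.mem_univ i0)).symm
  have h6 : ∑ i : Fin 4, c i ^ 2 = c i0 ^ 2 + ∑ i ∈ (Finset.univ.erase i0), c i ^ 2 :=
    (Finset.add_sum_erase _ (fun i => c i ^ 2) (Finset.mem_univ i0)).symm
  have h7 : ∑ i ∈ (Finset.univ.erase i0), c i = V.card - c i0 := by linarith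
  rw [h7] at h4
  have h8 : ∑ i : Fin 4, ((V.filter (fun v => f v = i)).card : ℝ) ^ 2 = ∑ i : Fin 4, c i ^ 2 := rfl
  have h9 : ((V.filter (fun v => f v = i0)).card : ℝ) = c i0 := rfl
  rw [h8, h9, h6]
  nlinarith [sq_nonneg (c i0 - a * V.card)]

/-- the total agreement outside `g` -/
theorem pairs_upper {A g : ℕ} (hA : 0 < A) (hg : g ∣ A) (hc : Nat.Coprime g (A / g))
    (V : Finset (ℕ × ℕ)) (hV : ∀ v ∈ V, Gen A v)
    (hl : ∀ v ∈ V, ∀ w ∈ V, ∀ p ∈ g.primeFactors, letter v p = letter w p)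
    (D : ℝ) (hD0 : 0 ≤ D)
    (hD : ∀ v ∈ V, ∀ w ∈ V, v ≠ w → Real.log |((det v w : ℤ) : ℝ)| ≤ D) :
    ∑ v ∈ V, ∑ w ∈ V, ∑ p ∈ A.primeFactors \ g.primeFactors,
      (if letter v p = letter w p then (1 : ℝ) else 0) * wt A p ≤
      V.card * Real.log A + V.card ^ 2 * (D - Real.log g) := by
  have hgp : g.primeFactors ⊆ A.primeFactors := Nat.primeFactors_mono hg hA.ne'
  set K : ℝ := (V.card : ℝ) with hK
  set R := A.primeFactors \ g.primeFactors with hR
  have h6 : ∀ v ∈ V, ∀ w ∈ V,
      ∑ p ∈ R, (if letter v p = letter w p then (1 : ℝ) else 0) * wt A p ≤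
        (if v = w then Real.log A else 0) + (D - Real.log g) := by
    intro v hv w hw
    have h7 : ∑ p ∈ R, (if letter v p = letter w p then (1 : ℝ) else 0) * wt A p + Real.log g =
        ∑ p ∈ A.primeFactors.filter (fun p => letter v p = letter w p), wt A p := by
      rw [← sum_wt_unitary hA hg hc, Finset.sum_filter, ← Finset.sum_sdiff hgp, ← hR]
      congr 1
      · apply Finset.sum_congr rfl
        intro p _
        split_ifs <;> simp
      · apply Finset.sum_congr rfl
        intro p hp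
        rw [if_pos (hl v hv w hw p hp)]
    by_cases h : v = w
    · rw [if_pos h]
      have h2 : ∑ p ∈ A.primeFactors.filter (fun p => letter v p = letter w p), wt A p ≤
          ∑ p ∈ A.primeFactors, wt A p :=
        Finset.sum_le_sum_of_subset_of_nonneg (Finset.filter_subset _ _)
          (fun p _ _ => wt_nonneg A p)
      rw [sum_wt hA] at h2
      linarith
    · rw [if_neg h]
      have h2 := agree_le (hV v hv) (hV w hw) h
      have h8 := hD v hv w hw h
      linarith
  calc _ ≤ ∑ v ∈ V, ∑ w ∈ V, ((if v = w then Real.log A else 0) + (D - Real.log g)) :=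
        Finset.sum_le_sum fun v hv => Finset.sum_le_sum fun w hw => h6 v hv w hw
    _ = K * Real.log A + K ^ 2 * (D - Real.log g) := by
        have h2 : ∀ v ∈ V, ∑ w ∈ V,
            ((if v = w then Real.log A else 0) + (D - Real.log g)) =
            Real.log A + K * (D - Real.log g) := by
          intro v hv
          rw [Finset.sum_add_distrib, Finset.sum_ite_eq, if_pos hv, Finset.sum_const,
            nsmul_eq_mul]
        rw [Finset.sum_congr rfl h2, Finset.sum_const, nsmul_eq_mul]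
        ring

theorem sum_outside {A g : ℕ} (hA : 0 < A) (hg : g ∣ A) (hc : Nat.Coprime g (A / g)) :
    ∑ p ∈ A.primeFactors \ g.primeFactors, wt A p = Real.log A - Real.log g := by
  have hgp : g.primeFactors ⊆ A.primeFactors := Nat.primeFactors_mono hg hA.ne'
  have h7 := Finset.sum_sdiff hgp (f := fun p => wt A p)
  rw [sum_wt hA, sum_wt_unitary hA hg hc] at h7
  linarith

/-- the number of triangles of one class in a ball -/
theorem ball {A g : ℕ} (hA : 2 ≤ A) (hg : g ∣ A) (hc : Nat.Coprime g (A / g)) (ε a : ℝ)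
    (hε : 0 < ε) (ha : 1 / 4 ≤ a)
    (hφ : Real.log A / 2 - Real.log g + ε * Real.log A ≤
      (4 * a ^ 2 - 2 * a + 1) / 3 * (Real.log A - Real.log g))
    (V : Finset (ℕ × ℕ)) (hV : ∀ v ∈ V, Gen A v)
    (hT : ∀ v ∈ V, ∀ w ∈ V, (2 * v.2 ≤ v.1 ↔ 2 * w.2 ≤ w.1))
    (hs : ∀ v ∈ V, ∀ w ∈ V, Real.log (small v) ≤ Real.log (small w) + ε / 4 * Real.log A)
    (hl : ∀ v ∈ V, ∀ w ∈ V, ∀ p ∈ g.primeFactors, letter v p = letter w p)
    (y : ℕ → Fin 4)
    (hy : ∀ v ∈ V, a * (Real.log A - Real.log g) ≤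
      ∑ p ∈ A.primeFactors \ g.primeFactors, if letter v p = y p then wt A p else 0) :
    (V.card : ℝ) ≤ 2 / ε := by
  have hA0 : 0 < A := by omega
  have hlA : 0 < Real.log A := Real.log_pos (by exact_mod_cast hA)
  set K : ℝ := (V.card : ℝ) with hK
  set R := A.primeFactors \ g.primeFactors with hR
  have hW := sum_outside hA0 hg hc
  rw [← hR] at hW
  have hK0 : 0 ≤ K := by positivity
  have hup := pairs_upper hA0 hg hc V hV hl ((1 / 2 + ε / 4) * Real.log A) (by positivity) (by
    intro v hv w hw hne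
    have h3 := log_det_le (hV v hv) (hV w hw) hne (hT v hv w hw) (ε / 4 * Real.log A)
      (hs v hv w hw) (hs w hw v hv)
    linarith)
  rw [← hR, ← hK] at hup
  -- the lower bound
  have h1 : ∑ v ∈ V, ∑ w ∈ V, ∑ p ∈ R,
      (if letter v p = letter w p then (1 : ℝ) else 0) * wt A p =
      ∑ p ∈ R, (∑ v ∈ V, ∑ w ∈ V, (if letter v p = letter w p then (1 : ℝ) else 0)) * wt A p := by
    have h5 : ∀ v ∈ V, ∑ w ∈ V, ∑ p ∈ R,
        (if letter v p = letter w p then (1 : ℝ) else 0) * wt A p =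
        ∑ p ∈ R, (∑ w ∈ V, (if letter v p = letter w p then (1 : ℝ) else 0)) * wt A p := by
      intro v _
      rw [Finset.sum_comm]
      apply Finset.sum_congr rfl
      intro p _
      rw [Finset.sum_mul]
    rw [Finset.sum_congr rfl h5, Finset.sum_comm]
    apply Finset.sum_congr rfl
    intro p _
    rw [Finset.sum_mul]
  have h2 : ∑ p ∈ R, (K ^ 2 * ((4 * a ^ 2 - 2 * a + 1) / 3) +
      (8 * a - 2) / 3 * K * (((V.filter (fun v => letter v p = y p)).card : ℝ) - a * K)) *
        wt A p ≤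
      ∑ p ∈ R, (∑ v ∈ V, ∑ w ∈ V, (if letter v p = letter w p then (1 : ℝ) else 0)) * wt A p := by
    apply Finset.sum_le_sum
    intro p _
    exact mul_le_mul_of_nonneg_right (pairs_lower V (fun v => letter v p) (y p) a)
      (wt_nonneg A p)
  have h3 : ∑ p ∈ R, (K ^ 2 * ((4 * a ^ 2 - 2 * a + 1) / 3) +
      (8 * a - 2) / 3 * K * (((V.filter (fun v => letter v p = y p)).card : ℝ) - a * K)) *
        wt A p =
      (K ^ 2 * ((4 * a ^ 2 - 2 * a + 1) / 3) - (8 * a - 2) / 3 * K * (a * K)) *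
        (Real.log A - Real.log g) +
      (8 * a - 2) / 3 * K *
        ∑ p ∈ R, ((V.filter (fun v => letter v p = y p)).card : ℝ) * wt A p := by
    rw [← hW, Finset.mul_sum, Finset.mul_sum, ← Finset.sum_add_distrib]
    apply Finset.sum_congr rfl
    intro p _
    ring
  have h4 : K * (a * (Real.log A - Real.log g)) ≤
      ∑ p ∈ R, ((V.filter (fun v => letter v p = y p)).card : ℝ) * wt A p := by
    have h5 : ∑ p ∈ R, ((V.filter (fun v => letter v p = y p)).card : ℝ) * wt A p =
        ∑ v ∈ V, ∑ p ∈ R, if letter v p = y p then wt A p else 0 := by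
      rw [Finset.sum_comm]
      apply Finset.sum_congr rfl
      intro p _
      rw [Finset.card_filter]
      push_cast
      rw [Finset.sum_mul]
      apply Finset.sum_congr rfl
      intro v _
      split_ifs <;> simp
    rw [h5]
    calc K * (a * (Real.log A - Real.log g)) =
        ∑ v ∈ V, a * (Real.log A - Real.log g) := by
          rw [Finset.sum_const, nsmul_eq_mul]
      _ ≤ _ := Finset.sum_le_sum hy
  have h5 : 0 ≤ (8 * a - 2) / 3 * K := mul_nonneg (by linarith) hK0
  have h6 := mul_le_mul_of_nonneg_left h4 h5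
  rw [h1] at hup
  rw [h3] at h2
  have h7 : K ^ 2 * ((4 * a ^ 2 - 2 * a + 1) / 3 * (Real.log A - Real.log g)) ≤
      K * Real.log A + K ^ 2 * ((1 / 2 + ε / 4) * Real.log A - Real.log g) := by
    have h8 : (K ^ 2 * ((4 * a ^ 2 - 2 * a + 1) / 3) - (8 * a - 2) / 3 * K * (a * K)) *
        (Real.log A - Real.log g) + (8 * a - 2) / 3 * K * (K * (a * (Real.log A - Real.log g))) =
        K ^ 2 * ((4 * a ^ 2 - 2 * a + 1) / 3 * (Real.log A - Real.log g)) := by ring
    linarith
  have h8 := mul_le_mul_of_nonneg_left hφ (sq_nonneg K)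
  have h9 : K ^ 2 * (3 * ε / 4) * Real.log A ≤ K * Real.log A := by linarith
  have h10 : K ^ 2 * (3 * ε / 4) ≤ K := le_of_mul_le_mul_right h9 hlA
  rcases hK0.eq_or_lt with h | h
  · rw [← h]
    positivity
  · have h11 : K * (3 * ε / 4) ≤ 1 := by
      have : K * (K * (3 * ε / 4)) ≤ K * 1 := by linarith
      exact le_of_mul_le_mul_left this h
    rw [le_div_iff₀ hε]
    linarith

end Pool.Agent.H83.EB
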