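import Mathlib

/-!
The size of a Hamming sphere over four letters.
-/

namespace Pool.Agent.H83.EB

open Finset

/-- the terms of the binomial expansion of `(k + (n - k)) ^ n` -/
private def tt (n k j : ℕ) : ℕ := k ^ j * (n - k) ^ (n - j) * n.choose j

private theorem tt_up (n k j : ℕ) (hk : k ≤ n) (hj : j + 1 ≤ k) : tt n k j ≤ tt n k (j + 1) := by
  unfold tt
  have h1 : n - j = (n - (j + 1)) + 1 := by omega
  rw [h1, pow_succ, pow_succ]
  have h2 : n.choose (j + 1) * (j + 1) = n.choose j * (n - j) := Nat.choose_succ_right_eq n j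
  have h3 : (n - k) * n.choose j ≤ k * n.choose (j + 1) := by
    have h4 : (n - k) * (j + 1) ≤ (n - j) * k := Nat.mul_le_mul (by omega) hj
    have h5 : ((n - k) * n.choose j) * (j + 1) ≤ (k * n.choose (j + 1)) * (j + 1) := by
      calc ((n - k) * n.choose j) * (j + 1) = n.choose j * ((n - k) * (j + 1)) := by ring
        _ ≤ n.choose j * ((n - j) * k) := Nat.mul_le_mul_left _ h4
        _ = k * (n.choose j * (n - j)) := by ring
        _ = (k * n.choose (j + 1)) * (j + 1) := by rw [← h2]; ring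
    exact Nat.le_of_mul_le_mul_right h5 (Nat.succ_pos j)
  calc k ^ j * ((n - k) ^ (n - (j + 1)) * (n - k)) * n.choose j =
      (k ^ j * (n - k) ^ (n - (j + 1))) * ((n - k) * n.choose j) := by ring
    _ ≤ (k ^ j * (n - k) ^ (n - (j + 1))) * (k * n.choose (j + 1)) := Nat.mul_le_mul_left _ h3
    _ = k ^ j * k * (n - k) ^ (n - (j + 1)) * n.choose (j + 1) := by ring

private theorem tt_down (n k j : ℕ) (hk : k ≤ n) (hj : k ≤ j) (hjn : j + 1 ≤ n) :
    tt n k (j + 1) ≤ tt n k j := by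
  unfold tt
  have h1 : n - j = (n - (j + 1)) + 1 := by omega
  rw [h1, pow_succ, pow_succ]
  have h2 : n.choose (j + 1) * (j + 1) = n.choose j * (n - j) := Nat.choose_succ_right_eq n j
  have h3 : k * n.choose (j + 1) ≤ (n - k) * n.choose j := by
    have h4 : (n - j) * k ≤ (n - k) * (j + 1) := Nat.mul_le_mul (by omega) (by omega)
    have h5 : (k * n.choose (j + 1)) * (j + 1) ≤ ((n - k) * n.choose j) * (j + 1) := by
      calc (k * n.choose (j + 1)) * (j + 1) = k * (n.choose (j + 1) * (j + 1)) := by ring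
        _ = k * (n.choose j * (n - j)) := by rw [h2]
        _ = n.choose j * ((n - j) * k) := by ring
        _ ≤ n.choose j * ((n - k) * (j + 1)) := Nat.mul_le_mul_left _ h4
        _ = ((n - k) * n.choose j) * (j + 1) := by ring
    exact Nat.le_of_mul_le_mul_right h5 (Nat.succ_pos j)
  calc k ^ j * k * (n - k) ^ (n - (j + 1)) * n.choose (j + 1) =
      (k ^ j * (n - k) ^ (n - (j + 1))) * (k * n.choose (j + 1)) := by ring
    _ ≤ (k ^ j * (n - k) ^ (n - (j + 1))) * ((n - k) * n.choose j) := Nat.mul_le_mul_left _ h3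
    _ = k ^ j * ((n - k) ^ (n - (j + 1)) * (n - k)) * n.choose j := by ring

private theorem tt_le (n k j : ℕ) (hk : k ≤ n) (hj : j ≤ n) : tt n k j ≤ tt n k k := by
  rcases le_total j k with h | h
  · have h1 : ∀ d, d ≤ k → tt n k (k - d) ≤ tt n k k := by
      intro d
      induction d with
      | zero => intro _; simp
      | succ d ih =>
        intro hd
        have h2 := tt_up n k (k - (d + 1)) hk (by omega)
        have h3 : k - (d + 1) + 1 = k - d := by omega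
        rw [h3] at h2
        exact h2.trans (ih (by omega))
    have h4 := h1 (k - j) (by omega)
    have h5 : k - (k - j) = j := by omega
    rwa [h5] at h4
  · have h1 : ∀ d, k + d ≤ n → tt n k (k + d) ≤ tt n k k := by
      intro d
      induction d with
      | zero => intro _; simp
      | succ d ih =>
        intro hd
        exact (tt_down n k (k + d) hk (by omega) (by omega)).trans (ih (by omega))
    have h4 := h1 (j - k) (by omega)
    have h5 : k + (j - k) = j := by omega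
    rwa [h5] at h4

/-- the largest term of the binomial expansion of `(k + (n - k)) ^ n` is the `k`-th -/
theorem choose_ge (n k : ℕ) (hk : k ≤ n) :
    n ^ n ≤ (n + 1) * (n.choose k * (k ^ k * (n - k) ^ (n - k))) := by
  have h1 : (k + (n - k)) ^ n = ∑ j ∈ range (n + 1), tt n k j := add_pow k (n - k) n
  have h2 : k + (n - k) = n := by omega
  rw [h2] at h1
  rw [h1]
  calc ∑ j ∈ range (n + 1), tt n k j ≤ ∑ j ∈ range (n + 1), tt n k k :=
        Finset.sum_le_sum (fun j hj => tt_le n k j hk (by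
          rw [Finset.mem_range] at hj
          omega))
    _ = (n + 1) * tt n k k := by rw [Finset.sum_const, Finset.card_range, smul_eq_mul]
    _ = (n + 1) * (n.choose k * (k ^ k * (n - k) ^ (n - k))) := by
        unfold tt
        ring

/-- `exp` of the divergence of Bernoulli laws `x`, `1/4` -/
noncomputable def F (x : ℝ) : ℝ := 4 * (x ^ x * ((1 - x) / 3) ^ (1 - x))

theorem ratio_le (n k : ℕ) (hn : 0 < n) (hk : k ≤ n) :
    (4 : ℝ) ^ n / (n.choose k * 3 ^ (n - k)) ≤ (n + 1) * F (k / n) ^ n := by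
  have hn' : (0 : ℝ) < n := by exact_mod_cast hn
  have hk' : (k : ℝ) ≤ n := by exact_mod_cast hk
  have hk0 : (0 : ℝ) ≤ k := Nat.cast_nonneg k
  have hx0 : (0 : ℝ) ≤ k / n := div_nonneg hk0 hn'.le
  have hx1 : (k : ℝ) / n ≤ 1 := (div_le_one hn').mpr hk'
  have hsub : ((n - k : ℕ) : ℝ) = (n : ℝ) - k := Nat.cast_sub hk
  have e1 : (((k : ℝ) / n) ^ ((k : ℝ) / n)) ^ n = ((k : ℝ) / n) ^ k := by
    rw [← Real.rpow_natCast (((k : ℝ) / n) ^ ((k : ℝ) / n)) n, ← Real.rpow_mul hx0,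
      div_mul_cancel₀ _ hn'.ne', Real.rpow_natCast]
  have e2 : (((1 - (k : ℝ) / n) / 3) ^ (1 - (k : ℝ) / n)) ^ n =
      ((1 - (k : ℝ) / n) / 3) ^ (n - k) := by
    have h0 : 0 ≤ (1 - (k : ℝ) / n) / 3 := div_nonneg (by linarith) (by norm_num)
    have h1 : (1 - (k : ℝ) / n) * n = ((n - k : ℕ) : ℝ) := by
      rw [hsub, sub_mul, div_mul_cancel₀ _ hn'.ne', one_mul]
    rw [← Real.rpow_natCast (((1 - (k : ℝ) / n) / 3) ^ (1 - (k : ℝ) / n)) n, ← Real.rpow_mul h0,
      h1, Real.rpow_natCast]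
  have e3 : F (k / n) ^ n = 4 ^ n * ((k : ℝ) ^ k * ((n - k : ℕ) : ℝ) ^ (n - k)) /
      ((n : ℝ) ^ n * 3 ^ (n - k)) := by
    unfold F
    rw [mul_pow, mul_pow, e1, e2]
    have h1 : (1 - (k : ℝ) / n) / 3 = ((n - k : ℕ) : ℝ) / (n * 3) := by
      rw [hsub]
      field_simp
    rw [h1, div_pow, div_pow, mul_pow]
    have h2 : (n : ℝ) ^ n = (n : ℝ) ^ k * (n : ℝ) ^ (n - k) := by
      rw [← pow_add]
      congr 1
      omega
    rw [h2]
    have h3 : (n : ℝ) ^ k ≠ 0 := pow_ne_zero _ hn'.ne'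
    have h4 : (n : ℝ) ^ (n - k) ≠ 0 := pow_ne_zero _ hn'.ne'
    have h5 : (3 : ℝ) ^ (n - k) ≠ 0 := pow_ne_zero _ (by norm_num)
    field_simp
  rw [e3]
  have hc : (0 : ℝ) < n.choose k := by exact_mod_cast Nat.choose_pos hk
  have h3 : (0 : ℝ) < 3 ^ (n - k) := by positivity
  have hnn : (0 : ℝ) < (n : ℝ) ^ n := by positivity
  have hge : (n : ℝ) ^ n ≤ (n + 1) * (n.choose k * ((k : ℝ) ^ k * ((n - k : ℕ) : ℝ) ^ (n - k))) := by
    exact_mod_cast choose_ge n k hk
  rw [div_le_iff₀ (mul_pos hc h3)]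
  have e4 : ((n : ℝ) + 1) * (4 ^ n * ((k : ℝ) ^ k * ((n - k : ℕ) : ℝ) ^ (n - k)) /
      ((n : ℝ) ^ n * 3 ^ (n - k))) * (n.choose k * 3 ^ (n - k)) =
      4 ^ n * ((n + 1) * (n.choose k * ((k : ℝ) ^ k * ((n - k : ℕ) : ℝ) ^ (n - k))) /
        (n : ℝ) ^ n) := by
    field_simp
  rw [e4]
  have h6 : 1 ≤ (n + 1) * (n.choose k * ((k : ℝ) ^ k * ((n - k : ℕ) : ℝ) ^ (n - k))) /
        (n : ℝ) ^ n := by
    rw [le_div_iff₀ hnn, one_mul]
    exact hge
  have h7 : (0 : ℝ) < 4 ^ n := by positivity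
  nlinarith

private theorem F_nonneg {x : ℝ} (h0 : 0 ≤ x) (h1 : x ≤ 1) : 0 ≤ F x := by
  unfold F
  have h2 : 0 ≤ (1 - x) / 3 := div_nonneg (by linarith) (by norm_num)
  positivity

private theorem F_pos {x : ℝ} (h0 : 0 < x) (h1 : x < 1) : 0 < F x := by
  unfold F
  have h2 : 0 < (1 - x) / 3 := div_pos (by linarith) (by norm_num)
  positivity

private theorem F_cont {a : ℝ} (h0 : 0 < a) (h1 : a < 1) : ContinuousAt F a := by
  unfold F
  have h2 : (1 - a) / 3 ≠ 0 := (div_pos (by linarith) (by norm_num)).ne'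
  have c1 : ContinuousAt (fun x : ℝ => x ^ x) a :=
    ContinuousAt.rpow continuousAt_id continuousAt_id (Or.inl h0.ne')
  have c2 : ContinuousAt (fun x : ℝ => (1 - x) / 3) a := by fun_prop
  have c3 : ContinuousAt (fun x : ℝ => 1 - x) a := by fun_prop
  have c4 : ContinuousAt (fun x : ℝ => ((1 - x) / 3) ^ (1 - x)) a :=
    ContinuousAt.rpow c2 c3 (Or.inl h2)
  exact continuousAt_const.mul (c1.mul c4)

theorem exists_C (a κ : ℝ) (ha : 1 / 4 ≤ a) (ha1 : a < 1) (h : F a < κ) :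
    ∃ a1 δ C : ℝ, a < a1 ∧ 0 < δ ∧ a1 + δ ≤ 1 ∧ 0 < C ∧
      ∀ n : ℕ, ∃ k : ℕ, k ≤ n ∧ (a1 + δ) * n ≤ k ∧
        (4 : ℝ) ^ n / (n.choose k * 3 ^ (n - k)) ≤ C * κ ^ n := by
  have ha0 : 0 < a := by linarith
  have hFa := F_pos ha0 ha1
  obtain ⟨κ1, hk1, hk2⟩ := exists_between h
  have hκ1 : 0 < κ1 := hFa.trans hk1
  have hκ : 0 < κ := hκ1.trans hk2
  have hev := (F_cont ha0 ha1).eventually_lt continuousAt_const hk1
  obtain ⟨r0, hr0, hball⟩ := Metric.eventually_nhds_iff.mp hev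
  set r : ℝ := min r0 (1 - a) / 5 with hr
  have hr5 : 0 < r := div_pos (lt_min hr0 (by linarith)) (by norm_num)
  have hra : 5 * r ≤ r0 := by
    have := min_le_left r0 (1 - a)
    rw [hr]
    linarith
  have hrb : 5 * r ≤ 1 - a := by
    have := min_le_right r0 (1 - a)
    rw [hr]
    linarith
  set b : ℝ := κ / κ1 - 1 with hb
  have hb0 : 0 < b := by
    rw [hb, sub_pos, one_lt_div hκ1]
    exact hk2
  set n0 : ℕ := ⌈1 / r⌉₊ with hn0
  set S : ℝ := ∑ i ∈ range n0, (4 / κ) ^ i with hS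
  have hterm : ∀ i, 0 ≤ (4 / κ) ^ i := fun i => by positivity
  have hS0 : 0 ≤ S := Finset.sum_nonneg (fun i _ => hterm i)
  refine ⟨a + r, r, 1 + 1 / b + S, by linarith, hr5, by linarith, by positivity, ?_⟩
  intro n
  have hn0' : (0 : ℝ) ≤ n := Nat.cast_nonneg n
  refine ⟨⌈(a + r + r) * n⌉₊, ?_, Nat.le_ceil _, ?_⟩
  · apply Nat.ceil_le.mpr
    nlinarith
  set k : ℕ := ⌈(a + r + r) * n⌉₊ with hkdef
  have hkn : k ≤ n := by
    apply Nat.ceil_le.mpr
    nlinarith
  rcases lt_or_ge n n0 with hlt | hge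
  · have h1 : (4 : ℝ) ^ n / (n.choose k * 3 ^ (n - k)) ≤ 4 ^ n := by
      apply div_le_self (by positivity)
      have h2 : 1 ≤ n.choose k * 3 ^ (n - k) := Nat.mul_pos (Nat.choose_pos hkn) (by positivity)
      exact_mod_cast h2
    have h2 : (4 / κ) ^ n ≤ S :=
      Finset.single_le_sum (fun i _ => hterm i) (Finset.mem_range.mpr hlt)
    have h3 : (4 : ℝ) ^ n = (4 / κ) ^ n * κ ^ n := by
      rw [← mul_pow, div_mul_cancel₀ _ hκ.ne']
    refine h1.trans ?_
    rw [h3]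
    apply mul_le_mul_of_nonneg_right _ (by positivity)
    have : 0 ≤ 1 / b := by positivity
    linarith
  · have hn1 : 1 / r ≤ n := Nat.ceil_le.mp hge
    have hnr : 1 ≤ n * r := by
      rw [div_le_iff₀ hr5] at hn1
      exact hn1
    have hnpos' : (0 : ℝ) < n := lt_of_lt_of_le (by positivity) hn1
    have hnpos : 0 < n := by exact_mod_cast hnpos'
    have hk3 : (k : ℝ) ≤ (a + 3 * r) * n := by
      have h4 : (k : ℝ) < (a + r + r) * n + 1 := Nat.ceil_lt_add_one (by positivity)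
      nlinarith
    have hk4 : (a + r + r) * n ≤ k := Nat.le_ceil _
    have hx1 : (k : ℝ) / n ≤ a + 3 * r := by
      rw [div_le_iff₀ hnpos']
      exact hk3
    have hx2 : a + r + r ≤ (k : ℝ) / n := by
      rw [le_div_iff₀ hnpos']
      exact hk4
    have hF1 : F ((k : ℝ) / n) < κ1 := by
      apply hball
      rw [Real.dist_eq, abs_lt]
      constructor <;> linarith
    have hF0 : 0 ≤ F ((k : ℝ) / n) := F_nonneg (by positivity) (by linarith)
    refine (ratio_le n k hnpos hkn).trans ?_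
    have h5 : F ((k : ℝ) / n) ^ n ≤ κ1 ^ n := pow_le_pow_left₀ hF0 hF1.le n
    have h6 : 1 + (n : ℝ) * b ≤ (1 + b) ^ n := one_add_mul_le_pow (by linarith) n
    have h7 : κ ^ n = (1 + b) ^ n * κ1 ^ n := by
      rw [← mul_pow]
      congr 1
      rw [hb]
      field_simp
      ring
    have h8 : (n : ℝ) + 1 ≤ (1 + 1 / b + S) * (1 + b) ^ n := by
      have h9 : (1 + 1 / b) * (1 + (n : ℝ) * b) = 1 + 1 / b + n * b + n := by
        field_simp
        ring
      have h10 : 0 ≤ 1 / b := by positivity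
      have h11 : 0 ≤ (n : ℝ) * b := by positivity
      have h12 : (1 + 1 / b) * (1 + (n : ℝ) * b) ≤ (1 + 1 / b + S) * (1 + b) ^ n :=
        mul_le_mul (by linarith) h6 (by positivity) (by positivity)
      linarith
    calc ((n : ℝ) + 1) * F ((k : ℝ) / n) ^ n ≤ (n + 1) * κ1 ^ n :=
          mul_le_mul_of_nonneg_left h5 (by positivity)
      _ ≤ ((1 + 1 / b + S) * (1 + b) ^ n) * κ1 ^ n :=
          mul_le_mul_of_nonneg_right h8 (by positivity)
      _ = (1 + 1 / b + S) * κ ^ n := by rw [h7]; ring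

theorem F_lt : F ((1 + Real.sqrt 3) / 4) < 1.52 := by
  set a : ℝ := (1 + Real.sqrt 3) / 4 with ha
  have hs1 : (1.732 : ℝ) ≤ Real.sqrt 3 := Real.le_sqrt_of_sq_le (by norm_num)
  have hs2 : Real.sqrt 3 ≤ 1.7324 := Real.sqrt_le_iff.mpr ⟨by norm_num, by norm_num⟩
  have h1 : (0.683 : ℝ) ≤ a := by
    rw [ha]
    linarith
  have h2 : a ≤ 0.6831 := by
    rw [ha]
    linarith
  have h3 : a ^ a ≤ (0.6831 : ℝ) ^ (0.68 : ℝ) :=
    (Real.rpow_le_rpow_of_exponent_ge (by linarith) (by linarith) (by linarith)).trans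
      (Real.rpow_le_rpow (by linarith) h2 (by norm_num))
  have h4 : ((1 - a) / 3) ^ (1 - a) ≤ (0.10567 : ℝ) ^ (0.316 : ℝ) :=
    (Real.rpow_le_rpow_of_exponent_ge (by linarith) (by linarith) (by linarith)).trans
      (Real.rpow_le_rpow (by linarith) (by linarith) (by norm_num))
  have h5 : F a ≤ 4 * ((0.6831 : ℝ) ^ (0.68 : ℝ) * (0.10567 : ℝ) ^ (0.316 : ℝ)) := by
    unfold F
    apply mul_le_mul_of_nonneg_left _ (by norm_num)
    apply mul_le_mul h3 h4 _ (by positivity)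
    exact Real.rpow_nonneg (by linarith) _
  refine lt_of_le_of_lt h5 ?_
  have e1 : ((0.6831 : ℝ) ^ (0.68 : ℝ)) ^ (250 : ℕ) = 0.6831 ^ (170 : ℕ) := by
    rw [← Real.rpow_natCast ((0.6831 : ℝ) ^ (0.68 : ℝ)) 250, ← Real.rpow_mul (by norm_num),
      ← Real.rpow_natCast (0.6831 : ℝ) 170]
    congr 1
    norm_num
  have e2 : ((0.10567 : ℝ) ^ (0.316 : ℝ)) ^ (250 : ℕ) = 0.10567 ^ (79 : ℕ) := by
    rw [← Real.rpow_natCast ((0.10567 : ℝ) ^ (0.316 : ℝ)) 250, ← Real.rpow_mul (by norm_num),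
      ← Real.rpow_natCast (0.10567 : ℝ) 79]
    congr 1
    norm_num
  refine lt_of_pow_lt_pow_left₀ 250 (by norm_num) ?_
  rw [mul_pow, mul_pow, e1, e2]
  norm_num

end Pool.Agent.H83.EB
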