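import Mathlib

/-!
Words over four letters which agree with a given word in a large weight.
-/

namespace Pool.Agent.H83.EB

open Finset

/-- the number of the subsets of size `k + 1` which contain a given element -/
private theorem card_mem {ι : Type*} [DecidableEq ι] (R : Finset ι) (k : ℕ) {p : ι} (hp : p ∈ R) :
    ((R.powersetCard (k + 1)).filter fun S => p ∈ S).card = (R.card - 1).choose k := by
  have h1 : (R.powersetCard (k + 1)).filter (fun S => p ∈ S) = ((R.erase p).powersetCard k).image (insert p) := by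
    ext S
    rw [mem_filter, mem_powersetCard, mem_image]
    constructor
    · rintro ⟨⟨h2, h3⟩, h4⟩
      refine ⟨S.erase p, mem_powersetCard.2 ⟨erase_subset_erase p h2, ?_⟩, insert_erase h4⟩
      rw [card_erase_of_mem h4, h3]
      rfl
    · rintro ⟨T, hT, rfl⟩
      obtain ⟨h2, h3⟩ := mem_powersetCard.1 hT
      have h4 : p ∉ T := fun h => notMem_erase p R (h2 h)
      exact ⟨⟨insert_subset hp (h2.trans (erase_subset p R)), by rw [card_insert_of_notMem h4, h3]⟩,
        mem_insert_self p T⟩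
  rw [h1, card_image_of_injOn, card_powersetCard, card_erase_of_mem hp]
  intro T hT T' hT' h
  have h4 : p ∉ T := fun h => notMem_erase p R ((mem_powersetCard.1 hT).1 h)
  have h5 : p ∉ T' := fun h => notMem_erase p R ((mem_powersetCard.1 hT').1 h)
  have h6 := congrArg (fun U : Finset ι => U.erase p) h
  simp only [erase_insert h4, erase_insert h5] at h6
  exact h6

/-- the sum of the weights of all subsets of size `k` -/
private theorem sum_wt {ι : Type*} [DecidableEq ι] (R : Finset ι) (w : ι → ℝ) (k : ℕ) :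
    (R.card : ℝ) * ∑ S ∈ R.powersetCard k, ∑ p ∈ S, w p = k * (R.card.choose k : ℝ) * ∑ p ∈ R, w p := by
  rcases k with _ | k
  · rw [powersetCard_zero, sum_singleton, sum_empty]
    simp
  · have h1 : ∑ S ∈ R.powersetCard (k + 1), ∑ p ∈ S, w p = ((R.card - 1).choose k : ℝ) * ∑ p ∈ R, w p := by
      have h2 : ∀ S ∈ R.powersetCard (k + 1), ∑ p ∈ S, w p = ∑ p ∈ R, if p ∈ S then w p else 0 := by
        intro S hS
        rw [← sum_filter]
        refine sum_congr ?_ fun _ _ => rfl
        ext p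
        rw [mem_filter]
        exact ⟨fun h => ⟨(mem_powersetCard.1 hS).1 h, h⟩, fun h => h.2⟩
      rw [sum_congr rfl h2, sum_comm, mul_sum]
      refine sum_congr rfl fun p hp => ?_
      rw [← sum_filter, sum_const, card_mem R k hp, nsmul_eq_mul]
    rw [h1]
    rcases Nat.eq_zero_or_pos R.card with h3 | h3
    · have h4 : R = ∅ := card_eq_zero.1 h3
      rw [h4, sum_empty]
      simp
    · obtain ⟨n, hn⟩ := Nat.exists_eq_succ_of_ne_zero (by omega : R.card ≠ 0)
      rw [hn, Nat.succ_eq_add_one, Nat.add_sub_cancel]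
      have h5 : ((n + 1 : ℕ) : ℝ) * (n.choose k : ℝ) = ((k + 1 : ℕ) : ℝ) * ((n + 1).choose (k + 1) : ℝ) := by
        have h6 := Nat.add_one_mul_choose_eq n k
        have h7 : (n + 1) * n.choose k = (k + 1) * (n + 1).choose (k + 1) := by rw [h6, mul_comm]
        exact_mod_cast h7
      rw [← mul_assoc, h5]

theorem subsets_ge {ι : Type*} [DecidableEq ι] (R : Finset ι) (w : ι → ℝ)
    (hw : ∀ p ∈ R, 0 ≤ w p) (a δ : ℝ) (ha : 0 ≤ a) (hδ : 0 < δ) (haδ : a + δ ≤ 1) (k : ℕ)
    (hk : k ≤ R.card) (hak : (a + δ) * R.card ≤ k) :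
    δ * (R.card.choose k : ℝ) ≤
      ((R.powersetCard k).filter (fun S => a * ∑ p ∈ R, w p ≤ ∑ p ∈ S, w p)).card := by
  have hsum := sum_wt R w k
  have hS0 : ∀ S ∈ R.powersetCard k, 0 ≤ ∑ p ∈ S, w p := fun S hS =>
    sum_nonneg fun p hp => hw p ((mem_powersetCard.1 hS).1 hp)
  have hSW : ∀ S ∈ R.powersetCard k, ∑ p ∈ S, w p ≤ ∑ p ∈ R, w p := fun S hS =>
    sum_le_sum_of_subset_of_nonneg (mem_powersetCard.1 hS).1 fun p hp _ => hw p hp
  have hW0 : 0 ≤ ∑ p ∈ R, w p := sum_nonneg hw
  have hW1 : R.card = 0 → ∑ p ∈ R, w p = 0 := fun h => by rw [card_eq_zero.1 h, sum_empty]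
  generalize ∑ p ∈ R, w p = W at *
  have hcard := card_powersetCard k R
  rcases hW0.eq_or_lt with hW | hW
  · have h1 : (R.powersetCard k).filter (fun S => a * W ≤ ∑ p ∈ S, w p) = R.powersetCard k := by
      refine filter_true_of_mem fun S hS => ?_
      rw [← hW, mul_zero]
      exact hS0 S hS
    rw [h1, hcard]
    have h2 : (0 : ℝ) ≤ (R.card.choose k : ℝ) := Nat.cast_nonneg _
    nlinarith
  · have hn : 0 < R.card := by
      rcases Nat.eq_zero_or_pos R.card with h | h
      · rw [hW1 h] at hW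
        exact absurd hW (lt_irrefl _)
      · exact h
    have hn' : (0 : ℝ) < (R.card : ℝ) := by exact_mod_cast hn
    have h1 : ∑ S ∈ R.powersetCard k, ∑ p ∈ S, w p ≤
        ∑ S ∈ R.powersetCard k, ((if a * W ≤ ∑ p ∈ S, w p then (1 : ℝ) else 0) * ((1 - a) * W) + a * W) := by
      refine sum_le_sum fun S hS => ?_
      by_cases h : a * W ≤ ∑ p ∈ S, w p
      · rw [if_pos h]
        have := hSW S hS
        linarith
      · rw [if_neg h]
        linarith
    rw [sum_add_distrib, ← sum_mul, ← sum_filter, sum_const, sum_const, hcard, nsmul_eq_mul, nsmul_eq_mul, mul_one] at h1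
    have hf0 : (0 : ℝ) ≤ (((R.powersetCard k).filter (fun S => a * W ≤ ∑ p ∈ S, w p)).card : ℝ) := Nat.cast_nonneg _
    have hC0 : (0 : ℝ) ≤ (R.card.choose k : ℝ) := Nat.cast_nonneg _
    generalize (((R.powersetCard k).filter (fun S => a * W ≤ ∑ p ∈ S, w p)).card : ℝ) = f at *
    generalize ∑ S ∈ R.powersetCard k, ∑ p ∈ S, w p = T at *
    generalize (R.card.choose k : ℝ) = C at *
    generalize (R.card : ℝ) = n at *
    have h2 : (k : ℝ) * C * W ≤ n * (f * ((1 - a) * W) + C * (a * W)) := by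
      rw [← hsum]
      exact mul_le_mul_of_nonneg_left h1 hn'.le
    have h3 : (a + δ) * n * (C * W) ≤ k * (C * W) := mul_le_mul_of_nonneg_right hak (mul_nonneg hC0 hW.le)
    have h4 : (n * W) * ((a + δ) * C) ≤ (n * W) * (f * (1 - a) + C * a) := by
      have e1 : (n * W) * ((a + δ) * C) = (a + δ) * n * (C * W) := by ring
      have e2 : (n * W) * (f * (1 - a) + C * a) = n * (f * ((1 - a) * W) + C * (a * W)) := by ring
      rw [e1, e2]
      linarith
    have h5 := le_of_mul_le_mul_left h4 (mul_pos hn' hW)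
    have h6 : f * (1 - a) ≤ f := by nlinarith
    linarith

theorem cover_ge {ι : Type*} [DecidableEq ι] (R : Finset ι) (w : ι → ℝ)
    (hw : ∀ p ∈ R, 0 ≤ w p) (a δ : ℝ) (ha : 0 ≤ a) (hδ : 0 < δ) (haδ : a + δ ≤ 1) (k : ℕ)
    (hk : k ≤ R.card) (hak : (a + δ) * R.card ≤ k) (l : ι → Fin 4) :
    δ * ((R.card.choose k : ℝ) * 3 ^ (R.card - k)) ≤
      ((Finset.univ : Finset (R → Fin 4)).filter
        (fun y => a * ∑ p ∈ R, w p ≤ ∑ p : R, if l p = y p then w p else 0)).card := by
  have h0 := subsets_ge R w hw a δ ha hδ haδ k hk hak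
  have hmem : ∀ (S : Finset ι) (y : R → Fin 4),
      y ∈ Fintype.piFinset (fun p : R => if (p : ι) ∈ S then {l p} else univ.erase (l p)) ↔
        ∀ p : R, (p : ι) ∈ S ↔ l p = y p := by
    intro S y
    rw [Fintype.mem_piFinset]
    refine forall_congr' fun p => ?_
    by_cases h : (p : ι) ∈ S
    · rw [if_pos h, mem_singleton]
      exact ⟨fun h1 => ⟨fun _ => h1.symm, fun _ => h⟩, fun h1 => (h1.1 h).symm⟩
    · rw [if_neg h, mem_erase]
      exact ⟨fun h1 => ⟨fun h2 => absurd h2 h, fun h2 => absurd h2.symm h1.1⟩,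
        fun h1 => ⟨fun h2 => h (h1.2 h2.symm), mem_univ _⟩⟩
  have hcard : ∀ S ∈ (R.powersetCard k).filter (fun S => a * ∑ p ∈ R, w p ≤ ∑ p ∈ S, w p),
      (Fintype.piFinset (fun p : R => if (p : ι) ∈ S then ({l p} : Finset (Fin 4)) else univ.erase (l p))).card =
        3 ^ (R.card - k) := by
    intro S hS
    obtain ⟨hS1, hS2⟩ := mem_powersetCard.1 (mem_filter.1 hS).1
    rw [Fintype.card_piFinset]
    have h1 : ∀ p : R, (if (p : ι) ∈ S then ({l p} : Finset (Fin 4)) else univ.erase (l p)).card =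
        if (p : ι) ∈ S then 1 else 3 := by
      intro p
      by_cases h : (p : ι) ∈ S
      · rw [if_pos h, if_pos h, card_singleton]
      · rw [if_neg h, if_neg h, card_erase_of_mem (mem_univ _), card_univ, Fintype.card_fin]
    rw [prod_congr rfl fun p _ => h1 p, prod_coe_sort R fun p => if p ∈ S then 1 else 3, prod_ite, prod_const_one,
      one_mul, prod_const]
    have h2 : (R.filter fun p => p ∉ S) = R \ S := by
      ext p
      rw [mem_filter, mem_sdiff]
    rw [h2, card_sdiff_of_subset hS1, hS2]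
  have hdisj : ∀ S ∈ (R.powersetCard k).filter (fun S => a * ∑ p ∈ R, w p ≤ ∑ p ∈ S, w p),
      ∀ S' ∈ (R.powersetCard k).filter (fun S => a * ∑ p ∈ R, w p ≤ ∑ p ∈ S, w p), S ≠ S' → Disjoint
      (Fintype.piFinset (fun p : R => if (p : ι) ∈ S then ({l p} : Finset (Fin 4)) else univ.erase (l p)))
      (Fintype.piFinset (fun p : R => if (p : ι) ∈ S' then ({l p} : Finset (Fin 4)) else univ.erase (l p))) := by
    intro S hS S' hS' hne
    have hS1 := (mem_powersetCard.1 (mem_filter.1 hS).1).1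
    have hS1' := (mem_powersetCard.1 (mem_filter.1 hS').1).1
    rw [disjoint_left]
    intro y hy hy'
    rw [hmem] at hy hy'
    apply hne
    ext p
    constructor
    · intro h
      exact (hy' ⟨p, hS1 h⟩).2 ((hy ⟨p, hS1 h⟩).1 h)
    · intro h
      exact (hy ⟨p, hS1' h⟩).2 ((hy' ⟨p, hS1' h⟩).1 h)
  have hsub : ((R.powersetCard k).filter (fun S => a * ∑ p ∈ R, w p ≤ ∑ p ∈ S, w p)).biUnion
      (fun S => Fintype.piFinset (fun p : R => if (p : ι) ∈ S then ({l p} : Finset (Fin 4)) else univ.erase (l p))) ⊆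
      (Finset.univ : Finset (R → Fin 4)).filter
        (fun y => a * ∑ p ∈ R, w p ≤ ∑ p : R, if l p = y p then w p else 0) := by
    intro y hy
    obtain ⟨S, hS, hy1⟩ := mem_biUnion.1 hy
    rw [hmem] at hy1
    have hS1 := (mem_powersetCard.1 (mem_filter.1 hS).1).1
    refine mem_filter.2 ⟨mem_univ _, (mem_filter.1 hS).2.trans (le_of_eq ?_)⟩
    have h1 : ∀ p : R, (if l p = y p then w p else 0) = if (p : ι) ∈ S then w p else 0 := by
      intro p
      by_cases h : (p : ι) ∈ S
      · rw [if_pos h, if_pos ((hy1 p).1 h)]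
      · rw [if_neg h, if_neg (fun h2 => h ((hy1 p).2 h2))]
    rw [sum_congr rfl fun p _ => h1 p, sum_coe_sort R fun p => if p ∈ S then w p else 0, ← sum_filter]
    refine sum_congr ?_ fun _ _ => rfl
    ext p
    rw [mem_filter]
    exact ⟨fun h => ⟨hS1 h, h⟩, fun h => h.2⟩
  have h1 := card_le_card hsub
  rw [card_biUnion hdisj, sum_congr rfl hcard, sum_const, smul_eq_mul] at h1
  have h2 : ((((R.powersetCard k).filter (fun S => a * ∑ p ∈ R, w p ≤ ∑ p ∈ S, w p)).card : ℕ) : ℝ) *
      3 ^ (R.card - k) ≤ (((Finset.univ : Finset (R → Fin 4)).filter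
        (fun y => a * ∑ p ∈ R, w p ≤ ∑ p : R, if l p = y p then w p else 0)).card : ℝ) := by
    exact_mod_cast h1
  refine le_trans ?_ h2
  rw [← mul_assoc]
  exact mul_le_mul_of_nonneg_right h0 (by positivity)

end Pool.Agent.H83.EB
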