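import Pool.Agent.H83.EB.Ball
import Pool.Agent.H83.EB.Cov

/-!
Counting pairs of a triangle and a word near its word.
-/

namespace Pool.Agent.H83.EB

open Pool.Agent.H99.PT Pool.Agent.H83.LP Finset

/-- one class of triangles -/
theorem class_count {A g : ℕ} (hA : 2 ≤ A) (hg : g ∣ A) (hc : Nat.Coprime g (A / g))
    (ε a δ : ℝ) (hε : 0 < ε) (ha : 1 / 4 ≤ a) (hδ : 0 < δ) (haδ : a + δ ≤ 1)
    (hφ : Real.log A / 2 - Real.log g + ε * Real.log A ≤
      (4 * a ^ 2 - 2 * a + 1) / 3 * (Real.log A - Real.log g))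
    (k : ℕ) (hk : k ≤ (A.primeFactors \ g.primeFactors).card)
    (hak : (a + δ) * (A.primeFactors \ g.primeFactors).card ≤ k)
    (V : Finset (ℕ × ℕ)) (hV : ∀ v ∈ V, Gen A v)
    (hT : ∀ v ∈ V, ∀ w ∈ V, (2 * v.2 ≤ v.1 ↔ 2 * w.2 ≤ w.1))
    (hs : ∀ v ∈ V, ∀ w ∈ V, Real.log (small v) ≤ Real.log (small w) + ε / 4 * Real.log A)
    (hl : ∀ v ∈ V, ∀ w ∈ V, ∀ p ∈ g.primeFactors, letter v p = letter w p) :
    (V.card : ℝ) * (δ * (((A.primeFactors \ g.primeFactors).card.choose k : ℝ) *
        3 ^ ((A.primeFactors \ g.primeFactors).card - k))) ≤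
      2 / ε * 4 ^ (A.primeFactors \ g.primeFactors).card := by
  classical
  have hA0 : 0 < A := by omega
  set R := A.primeFactors \ g.primeFactors with hR
  have hW := sum_outside hA0 hg hc
  rw [← hR] at hW
  let good : ℕ × ℕ → (R → Fin 4) → Prop := fun v y =>
    a * ∑ p ∈ R, wt A p ≤ ∑ p : R, if letter v p = y p then wt A p else 0
  have h1 : ∀ v ∈ V, δ * ((R.card.choose k : ℝ) * 3 ^ (R.card - k)) ≤
      (((Finset.univ : Finset (R → Fin 4)).filter (fun y => good v y)).card : ℝ) := by
    intro v _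
    exact cover_ge R (fun p => wt A p) (fun p _ => wt_nonneg A p) a δ (by linarith) hδ haδ k hk
      hak (fun p => letter v p)
  have h2 : ∀ y : R → Fin 4, ((V.filter (fun v => good v y)).card : ℝ) ≤ 2 / ε := by
    intro y
    let ye : ℕ → Fin 4 := fun p => if h : p ∈ R then y ⟨p, h⟩ else 0
    apply ball hA hg hc ε a hε ha hφ (V.filter (fun v => good v y))
      (fun v hv => hV v (Finset.mem_filter.mp hv).1)
      (fun v hv w hw => hT v (Finset.mem_filter.mp hv).1 w (Finset.mem_filter.mp hw).1)
      (fun v hv w hw => hs v (Finset.mem_filter.mp hv).1 w (Finset.mem_filter.mp hw).1)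
      (fun v hv w hw => hl v (Finset.mem_filter.mp hv).1 w (Finset.mem_filter.mp hw).1) ye
    intro v hv
    have h3 : good v y := (Finset.mem_filter.mp hv).2
    have h4 : ∑ p ∈ R, (if letter v p = ye p then wt A p else 0) =
        ∑ p : R, if letter v p = y p then wt A p else 0 := by
      rw [← Finset.sum_coe_sort R (fun p => if letter v p = ye p then wt A p else 0)]
      apply Finset.sum_congr rfl
      intro p _
      have h5 : ye p = y p := by
        simp only [ye]
        rw [dif_pos p.2]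
      rw [h5]
    rw [← hR, h4, ← hW]
    exact h3
  have h3 : ∑ v ∈ V, ((Finset.univ : Finset (R → Fin 4)).filter (fun y => good v y)).card =
      ∑ y : R → Fin 4, (V.filter (fun v => good v y)).card :=
    Finset.sum_card_bipartiteAbove_eq_sum_card_bipartiteBelow (fun v y => good v y)
  have h4 : ∑ v ∈ V, (((Finset.univ : Finset (R → Fin 4)).filter (fun y => good v y)).card : ℝ) =
      ∑ y : R → Fin 4, ((V.filter (fun v => good v y)).card : ℝ) := by exact_mod_cast h3
  calc (V.card : ℝ) * (δ * ((R.card.choose k : ℝ) * 3 ^ (R.card - k))) =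
      ∑ v ∈ V, δ * ((R.card.choose k : ℝ) * 3 ^ (R.card - k)) := by
        rw [Finset.sum_const, nsmul_eq_mul]
    _ ≤ ∑ v ∈ V, (((Finset.univ : Finset (R → Fin 4)).filter (fun y => good v y)).card : ℝ) :=
        Finset.sum_le_sum h1
    _ = ∑ y : R → Fin 4, ((V.filter (fun v => good v y)).card : ℝ) := h4
    _ ≤ ∑ y : R → Fin 4, 2 / ε := Finset.sum_le_sum (fun y _ => h2 y)
    _ = 2 / ε * 4 ^ R.card := by
        rw [Finset.sum_const, Finset.card_univ, Fintype.card_fun, Fintype.card_fin,
          Fintype.card_coe, nsmul_eq_mul]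
        push_cast
        ring

/-- all classes -/
theorem all_count {A g : ℕ} (hA : 2 ≤ A) (hg : g ∣ A) (hc : Nat.Coprime g (A / g))
    (ε a δ : ℝ) (hε : 0 < ε) (ha : 1 / 4 ≤ a) (hδ : 0 < δ) (haδ : a + δ ≤ 1)
    (hφ : Real.log A / 2 - Real.log g + ε * Real.log A ≤
      (4 * a ^ 2 - 2 * a + 1) / 3 * (Real.log A - Real.log g))
    (k : ℕ) (hk : k ≤ (A.primeFactors \ g.primeFactors).card)
    (hak : (a + δ) * (A.primeFactors \ g.primeFactors).card ≤ k) :
    ({v : ℕ × ℕ | Gen A v}.ncard : ℝ) *
        (δ * (((A.primeFactors \ g.primeFactors).card.choose k : ℝ) *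
          3 ^ ((A.primeFactors \ g.primeFactors).card - k))) ≤
      2 * ((1 / ε + 1) * 4 ^ g.primeFactors.card) *
        (2 / ε * 4 ^ (A.primeFactors \ g.primeFactors).card) := by
  classical
  have hA0 : 0 < A := by omega
  have hA1 : (1 : ℝ) < A := by exact_mod_cast hA
  have hlA : 0 < Real.log A := Real.log_pos hA1
  set R := A.primeFactors \ g.primeFactors with hR
  set V : Finset (ℕ × ℕ) := (gen_finite A).toFinset with hV
  have hVm : ∀ v, v ∈ V ↔ Gen A v := by
    intro v
    rw [hV, Set.Finite.mem_toFinset]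
    rfl
  rw [Set.ncard_eq_toFinset_card _ (gen_finite A), ← hV]
  set η : ℝ := ε / 4 * Real.log A with hη
  have hη0 : 0 < η := by positivity
  let key : ℕ × ℕ → Bool × ℕ × (g.primeFactors → Fin 4) := fun v =>
    (decide (2 * v.2 ≤ v.1), ⌊Real.log (small v) / η⌋₊, fun p => letter v p)
  have hlog0 : ∀ v, 0 ≤ Real.log (small v) / η := by
    intro v
    apply div_nonneg _ hη0.le
    exact Real.log_natCast_nonneg _
  -- number of keys
  have himg : (V.image key).card ≤ 2 * ((⌊1 / ε⌋₊ + 1) * 4 ^ g.primeFactors.card) := by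
    have h1 : V.image key ⊆ (Finset.univ : Finset Bool) ×ˢ
        ((range (⌊1 / ε⌋₊ + 1)) ×ˢ (Finset.univ : Finset (g.primeFactors → Fin 4))) := by
      intro a ha
      rw [Finset.mem_image] at ha
      obtain ⟨v, hv, rfl⟩ := ha
      rw [Finset.mem_product, Finset.mem_product]
      refine ⟨Finset.mem_univ _, ?_, Finset.mem_univ _⟩
      rw [Finset.mem_range, Nat.lt_succ_iff]
      apply Nat.floor_mono
      have hv' := (hVm v).mp hv
      have h3 := (log_small_le hv').2
      rw [div_le_div_iff₀ hη0 hε, hη]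
      have h4 := mul_le_mul_of_nonneg_left h3 hε.le
      linarith
    have h4 := Finset.card_le_card h1
    rw [Finset.card_product, Finset.card_product, Finset.card_univ, Fintype.card_bool,
      Finset.card_range, Finset.card_univ, Fintype.card_fun, Fintype.card_fin,
      Fintype.card_coe] at h4
    exact h4
  have himg' : ((V.image key).card : ℝ) ≤ 2 * ((1 / ε + 1) * 4 ^ g.primeFactors.card) := by
    have h4 : ((V.image key).card : ℝ) ≤
        ((2 * ((⌊1 / ε⌋₊ + 1) * 4 ^ g.primeFactors.card) : ℕ) : ℝ) := by exact_mod_cast himg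
    push_cast at h4
    refine h4.trans ?_
    have h5 := Nat.floor_le (show 0 ≤ 1 / ε by positivity)
    gcongr
  set X : ℝ := δ * ((R.card.choose k : ℝ) * 3 ^ (R.card - k)) with hX
  have hfib : ∀ c ∈ V.image key, ((V.filter (fun v => key v = c)).card : ℝ) * X ≤
      2 / ε * 4 ^ R.card := by
    intro c _
    apply class_count hA hg hc ε a δ hε ha hδ haδ hφ k hk hak
    · intro v hv
      rw [Finset.mem_filter] at hv
      exact (hVm v).mp hv.1
    · intro v hv w hw
      rw [Finset.mem_filter] at hv hw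
      have h1 : key v = key w := hv.2.trans hw.2.symm
      have h2 : decide (2 * v.2 ≤ v.1) = decide (2 * w.2 ≤ w.1) := congrArg Prod.fst h1
      exact decide_eq_decide.mp h2
    · intro v hv w hw
      rw [Finset.mem_filter] at hv hw
      have h1 : key v = key w := hv.2.trans hw.2.symm
      have h2 : ⌊Real.log (small v) / η⌋₊ = ⌊Real.log (small w) / η⌋₊ :=
        congrArg (fun x => x.2.1) h1
      have h3 := Nat.lt_floor_add_one (Real.log (small v) / η)
      have h4 := Nat.floor_le (hlog0 w)
      rw [h2] at h3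
      have h5 : Real.log (small v) / η ≤ Real.log (small w) / η + 1 := by linarith
      rw [div_le_iff₀ hη0, add_mul, div_mul_cancel₀ _ hη0.ne', one_mul] at h5
      exact h5
    · intro v hv w hw p hp
      rw [Finset.mem_filter] at hv hw
      have h1 : key v = key w := hv.2.trans hw.2.symm
      have h2 : (fun p : g.primeFactors => letter v p) = fun p : g.primeFactors => letter w p :=
        congrArg (fun x => x.2.2) h1
      exact congrFun h2 ⟨p, hp⟩
  have hcard : (V.card : ℝ) = ∑ c ∈ V.image key, ((V.filter (fun v => key v = c)).card : ℝ) := by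
    have := Finset.card_eq_sum_card_image key V
    exact_mod_cast this
  calc (V.card : ℝ) * X = ∑ c ∈ V.image key, ((V.filter (fun v => key v = c)).card : ℝ) * X := by
        rw [hcard, Finset.sum_mul]
    _ ≤ ∑ c ∈ V.image key, 2 / ε * 4 ^ R.card := Finset.sum_le_sum hfib
    _ = ((V.image key).card : ℝ) * (2 / ε * 4 ^ R.card) := by
        rw [Finset.sum_const, nsmul_eq_mul]
    _ ≤ 2 * ((1 / ε + 1) * 4 ^ g.primeFactors.card) * (2 / ε * 4 ^ R.card) :=
        mul_le_mul_of_nonneg_right himg' (by positivity)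

end Pool.Agent.H83.EB
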