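import Pool.Agent.H83.EB.Count
import Pool.Agent.H83.EB.Bin

/-!
The bound of Elias and Bassalygo for the number of triangles.
-/

namespace Pool.Agent.H83.EB

open Pool.Agent.H99.PT Pool.Agent.H83.LP Finset

theorem outside_eq {A g : ℕ} (hA : 0 < A) (hg : g ∣ A) (hc : Nat.Coprime g (A / g)) :
    A.primeFactors \ g.primeFactors = (A / g).primeFactors := by
  have h1 : A = g * (A / g) := (Nat.mul_div_cancel' hg).symm
  have h2 : A.primeFactors = g.primeFactors ∪ (A / g).primeFactors := by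
    conv_lhs => rw [h1]
    exact hc.primeFactors_mul
  have h3 : Disjoint g.primeFactors (A / g).primeFactors := hc.disjoint_primeFactors
  rw [h2, Finset.union_sdiff_left]
  exact Finset.sdiff_eq_self_of_disjoint h3.symm

theorem F_pos {x : ℝ} (h0 : 0 < x) (h1 : x < 1) : 0 < F x := by
  unfold F
  have h2 : 0 < (1 - x) / 3 := by linarith
  have h3 := Real.rpow_pos_of_pos h0 x
  have h4 := Real.rpow_pos_of_pos h2 (1 - x)
  positivity

theorem eb_main (γ a κ : ℝ) (hγ : γ ≤ 1 / 3) (ha : 1 / 4 ≤ a) (ha1 : a < 1)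
    (h : 3 * (1 - 3 * γ) ≤ (4 * a - 1) ^ 2 * (1 - γ)) (hκ : F a < κ) :
    ∃ C : ℝ, 0 < C ∧ ∀ A g : ℕ, 0 < A → g ∣ A → Nat.Coprime g (A / g) → (A : ℝ) ^ γ ≤ g →
      ({v : ℕ × ℕ | Gen A v}.ncard : ℝ) ≤
        C * 4 ^ g.primeFactors.card * κ ^ (A / g).primeFactors.card := by
  obtain ⟨a1, δ, C1, ha12, hδ, haδ, hC1, hC⟩ := exists_C a κ ha ha1 hκ
  have hκ0 : 0 < κ := (F_pos (by linarith) ha1).trans hκ
  set ε : ℝ := (4 * a1 ^ 2 - 2 * a1 + 1) / 3 * (1 - γ) - (1 / 2 - γ) with hε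
  have hε0 : 0 < ε := by
    have h1 : (4 * a ^ 2 - 2 * a + 1) / 3 * (1 - γ) - (1 / 2 - γ) < ε := by
      rw [hε]
      have h2 : (4 * a ^ 2 - 2 * a + 1) / 3 < (4 * a1 ^ 2 - 2 * a1 + 1) / 3 := by
        nlinarith
      have h3 : 0 < 1 - γ := by linarith
      have := mul_lt_mul_of_pos_right h2 h3
      linarith
    have h4 : 0 ≤ (4 * a ^ 2 - 2 * a + 1) / 3 * (1 - γ) - (1 / 2 - γ) := by linarith
    linarith
  refine ⟨2 * (1 / ε + 1) * (2 / ε) / δ * C1, by positivity, ?_⟩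
  intro A g hA hg hc hgA
  rcases Nat.lt_or_ge A 2 with hA2 | hA2
  · have h1 : {v : ℕ × ℕ | Gen A v} = ∅ := by
      rw [Set.eq_empty_iff_forall_notMem]
      intro v hv
      have hv' : Gen A v := hv
      have h0 := area_pos hv'
      have h2 : v.1 ∣ A := by
        rw [← prod_parts hv']
        exact ⟨part v 1 * part v 2 * part v 3, by simp [part]; ring⟩
      have h3 := Nat.le_of_dvd h0 h2
      have h4 := hv'.1
      have h5 := hv'.2.1
      omega
    rw [h1, Set.ncard_empty]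
    push_cast
    positivity
  have hApos : (0 : ℝ) < A := by exact_mod_cast hA
  have hlA : 0 < Real.log A := Real.log_pos (by exact_mod_cast hA2)
  have hg0 : 0 < g := Nat.pos_of_dvd_of_pos hg hA
  have hG : γ * Real.log A ≤ Real.log g := by
    have := Real.log_le_log (by positivity) hgA
    rwa [Real.log_rpow hApos] at this
  have hφ : Real.log A / 2 - Real.log g + ε * Real.log A ≤
      (4 * a1 ^ 2 - 2 * a1 + 1) / 3 * (Real.log A - Real.log g) := by
    have h1 : 0 ≤ 1 - (4 * a1 ^ 2 - 2 * a1 + 1) / 3 := by nlinarith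
    have h2 := mul_le_mul_of_nonneg_right hG h1
    rw [hε]
    linarith
  set n := (A.primeFactors \ g.primeFactors).card with hn
  have hn' : (A / g).primeFactors.card = n := by rw [hn, outside_eq hA hg hc]
  obtain ⟨k, hk, hak, hCk⟩ := hC n
  have hcount := all_count hA2 hg hc ε a1 δ hε0 (by linarith) hδ haδ hφ k hk hak
  rw [← hn] at hcount
  rw [hn']
  have hch : (0 : ℝ) < (n.choose k : ℝ) * 3 ^ (n - k) := by
    have : 0 < n.choose k := Nat.choose_pos hk
    positivity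
  set N : ℝ := ({v : ℕ × ℕ | Gen A v}.ncard : ℝ) with hN
  have h5 : N ≤ 2 * ((1 / ε + 1) * 4 ^ g.primeFactors.card) * (2 / ε * 4 ^ n) /
      (δ * ((n.choose k : ℝ) * 3 ^ (n - k))) := by
    rw [le_div_iff₀ (by positivity)]
    exact hcount
  refine h5.trans ?_
  have h6 : 2 * ((1 / ε + 1) * 4 ^ g.primeFactors.card) * (2 / ε * 4 ^ n) /
      (δ * ((n.choose k : ℝ) * 3 ^ (n - k))) =
      2 * (1 / ε + 1) * (2 / ε) / δ * 4 ^ g.primeFactors.card *
        ((4 : ℝ) ^ n / (n.choose k * 3 ^ (n - k))) := by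
    field_simp
  rw [h6]
  calc 2 * (1 / ε + 1) * (2 / ε) / δ * 4 ^ g.primeFactors.card *
        ((4 : ℝ) ^ n / (n.choose k * 3 ^ (n - k))) ≤
      2 * (1 / ε + 1) * (2 / ε) / δ * 4 ^ g.primeFactors.card * (C1 * κ ^ n) :=
        mul_le_mul_of_nonneg_left hCk (by positivity)
    _ = _ := by ring

end Pool.Agent.H83.EB
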